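import Pool.Agent.H22.Nil5

set_option autoImplicit false
open MeasureTheory ProbabilityTheory Set Function Filter unitInterval
open scoped Classical ENNReal

namespace Pool.Agent.Results.MP_9e03f2_pr.SuperExp
noncomputable section
open Pool.Agent.H22.Nil

/-- The lattice `ℤ^d`. -/
abbrev V (d : ℕ) := Fin d → ℤ

/-- The `ℓ¹` distance on `ℤ^d`. -/
def dist1 {d : ℕ} (u v : V d) : ℤ := ∑ i, |u i - v i|

/-- The value `F y 0` is determined by the labels `y v` with `‖v‖₁ ≤ r`. -/
def Det {d : ℕ} {T α : Type} (F : (V d → T) → V d → α) (y : V d → T) (r : ℕ) : Prop :=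
  ∀ y' : V d → T, (∀ v, dist1 v 0 ≤ r → y' v = y v) → F y' 0 = F y 0

/-- The coding radius: the least such `r`, and `⊤` if there is none. -/
def rad {d : ℕ} {T α : Type} (F : (V d → T) → V d → α) (y : V d → T) : ℕ∞ :=
  ⨅ (r : ℕ) (_ : Det F y r), (r : ℕ∞)

variable {d : ℕ}

abbrev TT (d : ℕ) := Fin d × Fin 3 → I
def PP (d : ℕ) : Measure (V d → TT d) :=
  Measure.infinitePi fun _ => Measure.infinitePi fun _ => volume
instance : IsProbabilityMeasure (PP d) := by unfold PP; infer_instance
def L (i : Fin d) (v : V d) (y : V d → TT d) : Om := fun j => y (update v i j.1) (i, j.2)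
abbrev La (d : ℕ) := {p : Fin d × V d // p.2 p.1 = 0}

lemma Xi_mp : MeasurePreserving (fun y (l : La d) => L l.1.1 l.1.2 y) (PP d)
    (Measure.infinitePi fun _ => mu) := by
  have h1 : MeasurePreserving _ (PP d) _ := ⟨(MeasurableEquiv.curry _ _ _).symm.measurable,
    Measure.infinitePi_map_curry_symm fun (_ : V d) (_ : Fin d × Fin 3) => (volume : Measure I)⟩
  have h2 : MeasurePreserving _ _ _ := ⟨by fun_prop, Measure.map_infinitePi_infinitePi_of_inj
    (P := fun _ : V d × Fin d × Fin 3 => (volume : Measure I))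
    (f := fun p : La d × J => (update p.1.1.2 p.1.1.1 p.2.1, p.1.1.1, p.2.2)) (by
      rintro ⟨⟨⟨i, v⟩, h⟩, n, c⟩ ⟨⟨⟨i', v'⟩, h'⟩, n', c'⟩ e
      simp only [Prod.mk.injEq] at e h h'
      obtain ⟨e, rfl, rfl⟩ := e
      have e1 := congrFun e i
      have e2 : v = v' := funext fun j => by
        by_cases c : j = i
        · rw [c, h, h']
        · simpa [c] using congrFun e j
      simp only [update_self] at e1
      subst e1 e2; rfl)⟩
  have h3 : MeasurePreserving _ _ _ := ⟨(MeasurableEquiv.curry _ _ _).measurable,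
    Measure.infinitePi_map_curry fun (_ : La d) (_ : J) => (volume : Measure I)⟩
  exact h3.comp (h2.comp h1)

lemma L0 (i : Fin d) (v : V d) (n : ℤ) : L i (update v i n) = L i v := by
  ext y j; simp [L]

lemma L_mp (i : Fin d) (v : V d) : MeasurePreserving (L i v) (PP d) mu := by
  rw [← L0 i v 0]
  exact (measurePreserving_eval_infinitePi (fun _ : La d => mu)
    ⟨(i, update v i 0), update_self ..⟩).comp Xi_mp

def enc (d : ℕ) : (Fin d → G) ≃ Fin (Fintype.card (Fin d → G)) := Fintype.equivFin _

def FF (y : V d → TT d) (v : V d) : Fin (Fintype.card (Fin d → G)) :=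
  enc d fun i => (X (v i) (L i v y)).1

lemma d_up (v : V d) (i : Fin d) (n m : ℤ) : dist1 (update v i n) (update v i m) = |n - m| := by
  rw [dist1, Finset.sum_eq_single i (fun j _ h => by simp [h]) (by simp)]; simp

lemma adj {u v : V d} (h : dist1 u v = 1) :
    ∃ i, v = update u i (u i + 1) ∨ u = update v i (v i + 1) := by
  obtain ⟨i, hi⟩ : ∃ i, u i ≠ v i := by
    by_contra! e
    simp [dist1, e] at h
  rw [dist1, ← Finset.add_sum_erase _ _ (Finset.mem_univ i)] at h
  have h1 := Finset.sum_nonneg (s := Finset.univ.erase i) fun j _ => abs_nonneg (u j - v j)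
  have h2 : 0 < |u i - v i| := abs_pos.2 (sub_ne_zero.2 hi)
  have h3 := (Finset.sum_eq_zero_iff_of_nonneg fun j _ => abs_nonneg (u j - v j)).1
    (show ∑ j ∈ Finset.univ.erase i, |u j - v j| = 0 by omega)
  have h4 : ∀ j ≠ i, u j = v j := fun j hj => by simpa [sub_eq_zero] using h3 j (by simpa)
  refine ⟨i, (abs_eq zero_le_one |>.1 (show |u i - v i| = 1 by omega)).symm.imp (fun e => ?_)
    fun e => ?_⟩ <;> ext j <;> by_cases c : j = i <;> simp [c, h4] <;> omega

lemma tl (C : ℝ) : ∀ᶠ r : ℕ in atTop,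
    PP d {y | (r : ℕ∞) < rad FF y} ≤ ENNReal.ofReal (Real.exp (-C * r)) := by
  set c := |C| + 1 with hc
  have c0 : 0 ≤ |C| := abs_nonneg C
  filter_upwards [eventually_ge_atTop ⌈2 * d + 2 * c + Real.exp (2 * c)⌉₊, eventually_ge_atTop 1]
    with r hr r1
  have hm : MeasurableSet {ω : Om | ∀ k < 2 * ((r - 1) / 2), (0 : ℤ) - (k : ℕ) ∉ T ω} := by
    simp only [ofPred_forall]
    exact .iInter fun _ => .iInter fun _ => (Tm _).compl
  calc _ ≤ PP d (⋃ i, L i 0 ⁻¹' {ω | ∀ k < 2 * ((r - 1) / 2), (0 : ℤ) - (k : ℕ) ∉ T ω}) := by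
        refine measure_mono fun y hy => by_contra fun h => not_lt.2 (show rad FF y ≤ r from ?_) hy
        simp only [mem_iUnion, mem_preimage, mem_ofPred_eq, not_exists, not_forall, not_not,
          zero_sub] at h
        refine iInf₂_le r fun y' hy' => congrArg (enc d) (funext fun i => congrArg Prod.fst ?_)
        obtain ⟨k, hk, h⟩ := h i
        refine (Xdet h (r := r) (by omega) fun j hj => ?_).symm
        rw [L, L, hy']
        have := d_up (0 : V d) i j.1 0
        rw [show update (0 : V d) i 0 = 0 from update_eq_self i _, sub_zero] at this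
        rwa [this]
    _ ≤ ∑ _i : Fin d, 2 * ENNReal.ofReal (Real.exp (Real.exp (2 * c)) *
          (Real.exp (2 * c))⁻¹ ^ ((r - 1) / 2)) :=
        (measure_iUnion_fintype_le _ _).trans (Finset.sum_le_sum fun i _ => by
          rw [(L_mp i 0).measure_preimage hm.nullMeasurableSet]
          exact tail 0 (Real.exp_pos _) _)
    _ ≤ _ := by
        rw [Finset.sum_const, Finset.card_univ, Fintype.card_fin, nsmul_eq_mul,
          ← ENNReal.ofReal_natCast, ← ENNReal.ofReal_ofNat, ← ENNReal.ofReal_mul (by positivity),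
          ← ENNReal.ofReal_mul (by positivity), ← Real.exp_neg, ← Real.exp_nat_mul, ← Real.exp_add,
          ← mul_assoc]
        refine ENNReal.ofReal_le_ofReal ((mul_le_mul_of_nonneg_right ((le_add_of_nonneg_right
          zero_le_one).trans (Real.add_one_le_exp _)) (by positivity)).trans ?_)
        rw [← Real.exp_add, Real.exp_le_exp]
        have h1 : (r : ℝ) ≤ 2 * ((r - 1) / 2 : ℕ) + 2 := by exact_mod_cast (by omega)
        have h2 := Nat.ceil_le.1 hr
        have h3 : C * r ≤ |C| * r := by gcongr; exact le_abs_self C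
        nlinarith

/-- For every `d` there is a finitary factor of an i.i.d. field on `ℤ^d` that is a proper
colouring, is 1-dependent, and whose coding radius has super-exponential tails. -/
theorem result (d : ℕ) : ∃ (q : ℕ) (T : Type) (_ : MeasurableSpace T) (_ : StandardBorelSpace T)
    (ν : Measure T) (_ : IsProbabilityMeasure ν) (F : (V d → T) → V d → Fin q),
    Measurable F ∧ (∀ y a v, F (fun u => y (u + a)) v = F y (v + a)) ∧
    (∀ᵐ y ∂Measure.infinitePi fun _ : V d => ν, ∀ u v, dist1 u v = 1 → F y u ≠ F y v) ∧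
    (∀ A B : Set (V d), (∀ a ∈ A, ∀ b ∈ B, 1 < dist1 a b) →
      IndepFun (fun y (a : A) => F y a) (fun y (b : B) => F y b)
        (Measure.infinitePi fun _ : V d => ν)) ∧
    (∀ᵐ y ∂Measure.infinitePi fun _ : V d => ν, rad F y < ⊤) ∧
    ∀ C : ℝ, ∀ᶠ r : ℕ in atTop, (Measure.infinitePi fun _ : V d => ν) {y | (r : ℕ∞) < rad F y} ≤
      ENNReal.ofReal (Real.exp (-C * r)) := by
  refine ⟨_, TT d, inferInstance, inferInstance, Measure.infinitePi fun _ => volume, inferInstance,
    FF, ?_, fun y a v => ?_, ?_, fun A B h => ?_, ?_, tl⟩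
  · exact measurable_pi_lambda _ fun v => (measurable_of_countable _).comp
      (measurable_pi_lambda _ fun i => ((Xm _).comp (L_mp i v).measurable).fst)
  · refine congrArg (enc d) (funext fun i => congrArg Prod.fst ?_)
    rw [Pi.add_apply, ← Xs]
    congr 1 with j : 1
    simp only [L, sft]
    congr 1 with k : 1
    by_cases c : k = i <;> simp [c]
  · have : ∀ᵐ y ∂PP d, ∀ u : V d, ∀ i, (X (u i) (L i u y)).1 ≠ (X (u i + 1) (L i u y)).1 :=
      ae_all_iff.2 fun u => ae_all_iff.2 fun i =>
        (L_mp i u).quasiMeasurePreserving.ae (proper (u i))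
    filter_upwards [this] with y hy u v h e
    obtain ⟨i, rfl | rfl⟩ := adj h <;> have := congrFun ((enc d).injective e) i <;>
      simp only [update_self, L0] at this
    exacts [hy _ _ this, hy _ _ this.symm]
  · have h1 := indep_pi (ι := La d) (fun l => measurable_pi_lambda _ fun _ => Xm _)
      (fun l => measurable_pi_lambda _ fun _ => Xm _) fun l =>
      ind1 (A := {n | update l.1.2 l.1.1 n ∈ A}) (B := {n | update l.1.2 l.1.1 n ∈ B})
        fun n hn m hm => d_up l.1.2 l.1.1 n m ▸ h _ hn _ hm
    rw [← Xi_mp.map_eq] at h1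
    have h2 := fun A : Set (V d) => show Measurable fun (z : ∀ l : La d,
        {n | update l.1.2 l.1.1 n ∈ A} → S) (a : A) => enc d fun i =>
          (z ⟨(i, update a.1 i 0), update_self ..⟩ ⟨a.1 i, by simp⟩).1 from
      measurable_pi_lambda _ fun v => (measurable_of_countable _).comp (by fun_prop)
    have h3 := h1.comp (h2 A) (h2 B)
    rw [indepFun_iff_measure_inter_preimage_eq_mul] at h3 ⊢
    intro s t hs ht
    have h4 := fun A : Set (V d) => (h2 A).comp (measurable_pi_lambda _ fun l : La d =>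
      measurable_pi_lambda (fun (ξ : La d → Om) (n : {n | update l.1.2 l.1.1 n ∈ A}) => X n (ξ l))
        fun n => (Xm _).comp (measurable_pi_apply l))
    have := h3 s t hs ht
    rw [Measure.map_apply Xi_mp.measurable ((h4 A hs).inter (h4 B ht)),
      Measure.map_apply Xi_mp.measurable (h4 A hs),
      Measure.map_apply Xi_mp.measurable (h4 B ht)] at this
    simp only [preimage_inter, preimage_preimage, comp_def, L0] at this
    exact this
  · have h : Tendsto (fun r : ℕ => ENNReal.ofReal (Real.exp (-1 * r))) atTop (nhds 0) := by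
      simpa using ENNReal.tendsto_ofReal
        (Real.tendsto_exp_neg_atTop_nhds_zero.comp tendsto_natCast_atTop_atTop)
    refine nonpos_iff_eq_zero.1 (ge_of_tendsto h ((tl 1).mono fun r hr =>
      le_trans (measure_mono fun y hy => ?_) hr))
    exact (ENat.natCast_lt_top r).trans_le (not_lt.1 hy)

end
end Pool.Agent.Results.MP_9e03f2_pr.SuperExp
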